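import Mathlib
import Pool.Agent.H.MP_53b42b_nt.A
import Pool.Agent.H.MP_c5dce0_nt.A

set_option autoImplicit false

namespace Pool.Agent.H.MP_b3d406_nt

open PowerSeries Finset Pool.Agent.Lib.helper11.Mahler Pool.Agent.H.MP_918176_nt
  Pool.Agent.H.MP_53b42b_nt

noncomputable def S (m n : ℕ) : ℤ := coeff n (HH m (n + 1))

lemma lt4 (n M : ℕ) (h : n ≤ M) : n < 4 ^ M := h.trans_lt (Nat.lt_pow_self (by norm_num))

lemma stab (m n M : ℕ) (f : ℤ⟦X⟧) (h : n + 1 ≤ M) :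
    coeff n (f * HH m M) = coeff n (f * HH m (n + 1)) := by
  rw [HH, HH, ← mul_assoc, ← mul_assoc]
  exact coeff_prod_stable 4 _ n (by norm_num) _ _ _ (lt4 _ _ (by omega)) h

lemma st_S (m a i n : ℕ) (f : ℤ⟦X⟧) (h : St m a (2 * i) f) :
    S m (4 ^ i * n + a) = coeff n (f * HH m (n + 1)) := by
  have h1 := h (2 * (4 ^ i * n + a + n + 1)) n
  rw [← mul_add, G_eq, show G m (2 * _) 0 = _ from G_eq m _ 0, stab _ _ _ _ (by omega), pow_mul,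
    add_comm a, ← one_mul (HH m _), show 2 ^ 2 = 4 from rfl, stab _ _ _ _ (by omega), one_mul] at h1
  exact h1

lemma all_st (m j a : ℕ) (h : a < 2 ^ j) : ∃ f ∈ B, St m a j f := by
  induction j generalizing a with
  | zero =>
    obtain rfl : a = 0 := by simpa using h
    exact ⟨1, one_mem _, fun N n => by simp⟩
  | succ j ih =>
    have key : ∀ b, b < 2 ^ j → (∃ f ∈ B, St m b (j + 1) f) ∧
        ∃ f ∈ B, St m (b + 2 ^ j) (j + 1) f := fun b hb => by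
      obtain ⟨f, hf, h1⟩ := ih b hb
      obtain ⟨c, p, hp, q, hq, e⟩ := form (f * r ^ ex m j)
        (mul_mem hf (pow_mem (r_eq ▸ add_mem (one_mem _) sB) _))
      obtain ⟨h2, h3⟩ := step m b j f _ _ h1 e
      have := sB
      exact ⟨⟨_, by aesop, h2⟩, _, by aesop, h3⟩
    rcases lt_or_ge a (2 ^ j) with h1 | h1
    · exact (key a h1).1
    · obtain ⟨b, rfl⟩ := Nat.exists_eq_add_of_le' h1
      exact (key b (by omega)).2

lemma emult_congr (M : ℕ) (a b : ℤ) (h : a ≡ b [ZMOD 4 ^ M]) (ha : ¬ 4 ^ M ∣ a) :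
    emultiplicity 4 a = emultiplicity 4 b := by
  rw [emultiplicity_eq_emultiplicity_iff]
  intro k
  rcases le_total k M with h1 | h1
  · exact (h.of_dvd (pow_dvd_pow 4 h1)).dvd_iff
  · exact iff_of_false (fun h2 => ha ((pow_dvd_pow 4 h1).trans h2))
      fun h2 => ha (h.dvd_iff.mpr ((pow_dvd_pow 4 h1).trans h2))

theorem fin_kernel (m M : ℕ) (hM : ∀ n, ¬ 4 ^ M ∣ S m n) :
    {e : ℕ → ℕ∞ | ∃ i j, j < 4 ^ i ∧ e = fun n => emultiplicity 4 (S m (4 ^ i * n + j))}.Finite := by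
  have : NeZero (4 ^ M) := ⟨by positivity⟩
  let φ : ℤ⟦X⟧ →+* (ZMod (4 ^ M))⟦X⟧ := PowerSeries.map (Int.castRingHom _)
  have hs : φ s ^ (2 * M) = 0 := by
    have h1 : s = 2 * (X * geo ℤ 1) := by
      rw [s, r]
      linear_combination g1
    have h2 : ((4 ^ M : ℕ) : (ZMod (4 ^ M))⟦X⟧) = 0 := by
      rw [← map_natCast (C : ZMod (4 ^ M) →+* _), ZMod.natCast_self, map_zero]
    push_cast at h2
    rw [h1, map_mul, map_ofNat, mul_pow, pow_mul, show (2 : (ZMod (4 ^ M))⟦X⟧) ^ 2 = 4 by norm_num,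
      h2, zero_mul]
  have hi : IsIntegral (ZMod (4 ^ M)) (φ s) :=
    ⟨Polynomial.X ^ (2 * M), Polynomial.monic_X_pow _, by simpa using hs⟩
  have := Algebra.finite_adjoin_simple_of_isIntegral hi
  have : Finite (Algebra.adjoin (ZMod (4 ^ M)) {φ s}) := Module.finite_of_finite (ZMod (4 ^ M))
  refine (Set.finite_range fun (t : Algebra.adjoin (ZMod (4 ^ M)) {φ s}) (n : ℕ) =>
    emultiplicity 4 ((coeff n (t.1 * φ (HH m (n + 1)))).val : ℤ)).subset ?_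
  rintro _ ⟨i, j, hj, rfl⟩
  obtain ⟨f, hf, h⟩ := all_st m (2 * i) j (by rwa [pow_mul])
  have hf' : φ f ∈ Algebra.adjoin (ZMod (4 ^ M)) {φ s} := by
    have : B ≤ (Algebra.adjoin (ZMod (4 ^ M)) {φ s}).toSubring.comap φ :=
      Subring.closure_le.mpr (by rintro _ rfl; exact Algebra.subset_adjoin rfl)
    exact this hf
  refine ⟨⟨_, hf'⟩, funext fun n => (emult_congr M _ _ ?_ (hM _)).symm⟩
  rw [st_S m j i n f h, ← map_mul, coeff_map, eq_intCast, ZMod.val_intCast]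
  push_cast
  exact (Int.mod_modEq _ _).symm

/-! automata modulo 32 -/

def z2 (l : List ℕ) (a : ℕ) : List ℕ := md (ad (db (nxt l a).2) (0 :: (nxt l a).2))

def cl (a : ℕ) (T T' : List (List ℕ)) : Bool :=
  T.all fun l => T'.elem (z0 l a) && T'.elem (z2 l a)

lemma auto_st (m : ℕ) (T0 T1 : List (List ℕ)) (h0 : [1] ∈ T0) (h1 : cl (2 * m) T0 T1 = true)
    (h2 : cl m T1 T0 = true) (j a : ℕ) (h : a < 2 ^ j) :
    ∃ l ∈ (if j % 2 = 0 then T0 else T1), ∃ g ∈ B, St m a j (ev l + 32 * g) := by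
  induction j generalizing a with
  | zero =>
    obtain rfl : a = 0 := by simpa using h
    exact ⟨[1], h0, 0, zero_mem _, fun N n => by simp [MP_53b42b_nt.ev]⟩
  | succ j ih =>
    have h3 : cl (ex m j) (if j % 2 = 0 then T0 else T1) (if (j + 1) % 2 = 0 then T0 else T1) =
        true := by
      unfold ex
      split_ifs <;> first | assumption | omega
    simp only [cl, List.all_eq_true, Bool.and_eq_true, List.elem_iff] at h3
    rcases lt_or_ge a (2 ^ j) with h4 | h4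
    · obtain ⟨l, hl, h5⟩ := ih a h4
      exact ⟨_, (h3 l hl).1, (st0 m a j l h5).1⟩
    · obtain ⟨b, rfl⟩ := Nat.exists_eq_add_of_le' h4
      obtain ⟨l, hl, h5⟩ := ih b (by omega)
      obtain ⟨g, hg, h6⟩ := (st0 m b j l h5).2
      obtain ⟨u, hu, h7⟩ := ev_md (ad (db (nxt l (ex m j)).2) (0 :: (nxt l (ex m j)).2))
      have := sB
      refine ⟨_, (h3 l hl).2, u + (s + 2) * g, by aesop, ?_⟩
      convert h6 using 1
      simp only [ev_ad, MP_53b42b_nt.ev, ev_db, Nat.cast_zero] at h7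
      rw [z2]
      linear_combination -h7

lemma auto_val (m : ℕ) (T0 T1 : List (List ℕ)) (h0 : [1] ∈ T0) (h1 : cl (2 * m) T0 T1 = true)
    (h2 : cl m T1 T0 = true) (n : ℕ) : ∃ l ∈ T0, ∃ k : ℤ, S m n = l.headD 0 + 32 * k := by
  obtain ⟨l, hl, g, -, h⟩ := auto_st m T0 T1 h0 h1 h2 (2 * n) n (by rw [pow_mul]; exact lt4 _ _ le_rfl)
  rw [if_pos (by omega)] at hl
  have h3 := st_S m n n 0 _ h
  have h4 : ∀ k, constantCoeff (geo ℤ k) = 1 := fun k => by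
    rw [← coeff_zero_eq_constantCoeff_apply]
    simp [geo]
  refine ⟨l, hl, constantCoeff g, ?_⟩
  rw [mul_zero, zero_add] at h3
  rw [h3]
  rcases l with _ | ⟨c, l⟩ <;> simp [HH, MP_53b42b_nt.ev, s, r, h4, map_ofNat]

def T1_0 : List (List ℕ) :=
  [[1], [1, 17, 24, 8], [10, 5, 0, 8], [4, 26, 28, 8],
  [20, 18, 4, 8], [1, 20, 26], [20, 30, 10], [6, 15, 14, 16],
  [18, 5, 14, 16], [10, 25, 26, 8], [22, 15, 18, 8], [18, 29, 18, 24],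
  [30, 3, 26, 24], [4, 10, 4, 16], [28, 22, 20, 16], [28, 6, 20, 16],
  [20, 18, 20, 16], [12, 14, 4, 16], [20, 2, 20, 16], [1, 17, 8, 24],
  [26, 29, 0, 24], [12, 30, 20, 24], [28, 6, 12, 24], [20, 18, 4],
  [28, 22, 4], [12, 30, 28], [4, 26, 28], [6, 31, 6, 8],
  [10, 1, 30, 8], [22, 7, 6, 24], [10, 1, 14, 24], [18, 13, 18, 24],
  [18, 13, 2, 8], [14, 27, 26, 8], [10, 25, 10, 24], [6, 7, 18, 24],
  [26, 1, 10, 8], [6, 23, 2, 8], [22, 23, 22, 8], [26, 25, 14, 8],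
  [10, 17, 14, 24], [2, 5, 18, 8], [30, 19, 10, 8], [30, 11, 30, 8],
  [18, 5, 22, 8], [30, 27, 14, 24], [2, 29, 22, 24], [4, 26, 4, 16],
  [28, 6, 28, 16], [4, 26, 12, 16], [4, 10, 12, 16], [28, 22, 28, 16],
  [12, 30, 12, 16], [20, 2, 28, 16], [20, 18, 28, 16], [12, 30, 4, 16],
  [26, 17, 10, 8], [2, 21, 2, 24], [14, 11, 10, 24], [12, 14, 12, 16],
  [22, 23, 6, 24], [6, 23, 18, 24], [10, 9, 26, 8], [22, 31, 18, 8],
  [22, 7, 22, 8], [6, 31, 22, 24], [26, 9, 30, 24], [30, 19, 26, 24],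
  [2, 21, 18, 8], [30, 3, 10, 8], [14, 3, 14, 8], [2, 13, 6, 8],
  [14, 19, 30, 24], [18, 5, 6, 24], [6, 15, 6, 8], [26, 25, 30, 24],
  [26, 1, 26, 24], [22, 31, 2, 24], [10, 17, 30, 8], [6, 15, 22, 24],
  [26, 9, 14, 8], [26, 17, 26, 24], [6, 7, 2, 8], [10, 9, 10, 24],
  [2, 5, 2, 24], [14, 27, 10, 24], [14, 11, 26, 8], [30, 27, 30, 8],
  [18, 21, 22, 8], [30, 11, 14, 24], [2, 13, 22, 24], [14, 3, 30, 24],
  [18, 21, 6, 24], [22, 15, 2, 24], [18, 29, 2, 8], [14, 19, 14, 8],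
  [2, 29, 6, 8]]

def T1_1 : List (List ℕ) :=
  [[1, 4, 2], [4, 6, 2], [1, 9, 12, 4], [6, 3, 16, 4],
  [10, 1, 22, 20], [18, 29, 10, 20], [4, 10, 20, 8], [4, 26, 12, 8],
  [20, 18, 20, 8], [20, 18, 12, 8], [1, 28, 30, 0, 16], [12, 2, 22, 16, 16],
  [20, 26, 8, 8, 16], [12, 22, 8, 24, 16], [6, 31, 30, 12, 16], [22, 15, 18, 28, 16],
  [18, 29, 18, 4, 16], [18, 21, 30, 20, 16], [10, 25, 18, 20, 16], [26, 25, 30, 4, 16],
  [22, 7, 22, 12, 16], [22, 31, 26, 28, 16], [18, 29, 26, 4, 16], [2, 29, 22, 20, 16],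
  [30, 27, 30, 28, 16], [30, 19, 18, 12, 16], [4, 10, 12, 8], [28, 6, 28, 24],
  [28, 22, 4, 24], [28, 22, 28, 24], [28, 6, 4, 24], [20, 18, 4, 8],
  [20, 18, 28, 8], [12, 30, 12, 24], [12, 14, 20, 24], [20, 2, 4, 8],
  [20, 2, 28, 8], [26, 25, 6, 20], [2, 21, 26, 20], [12, 14, 28, 24],
  [12, 30, 4, 24], [12, 30, 28, 24], [4, 10, 4, 8], [4, 26, 28, 8],
  [22, 31, 18, 28, 16], [10, 9, 10, 20, 16], [10, 17, 6, 4, 16], [22, 7, 14, 12, 16],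
  [6, 7, 2, 28, 16], [18, 13, 26, 4, 16], [2, 13, 22, 20, 16], [14, 19, 14, 28, 16],
  [14, 11, 2, 12, 16], [6, 31, 6, 12, 16], [6, 23, 10, 28, 16], [26, 1, 2, 20, 16],
  [10, 1, 14, 4, 16], [6, 15, 6, 12, 16], [6, 7, 10, 28, 16], [22, 23, 14, 12, 16],
  [6, 23, 2, 28, 16], [26, 1, 26, 20, 16], [26, 9, 22, 4, 16], [10, 25, 10, 20, 16],
  [10, 1, 6, 4, 16], [2, 5, 10, 4, 16], [18, 5, 6, 20, 16], [30, 11, 30, 28, 16],
  [30, 3, 18, 12, 16], [30, 11, 22, 28, 16], [14, 11, 26, 12, 16], [18, 13, 18, 4, 16],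
  [30, 27, 22, 28, 16], [14, 27, 26, 12, 16], [2, 5, 2, 4, 16], [2, 13, 14, 20, 16],
  [4, 26, 20, 8], [28, 6, 12, 24], [28, 6, 20, 24], [4, 26, 4, 8],
  [4, 10, 28, 8], [28, 22, 12, 24], [28, 22, 20, 24], [20, 2, 12, 8],
  [20, 2, 20, 8], [12, 14, 12, 24], [12, 30, 20, 24], [26, 17, 2, 20, 16],
  [10, 17, 14, 4, 16], [2, 21, 10, 4, 16], [18, 21, 6, 20, 16], [14, 3, 14, 28, 16],
  [14, 27, 2, 12, 16], [12, 14, 4, 24], [10, 9, 18, 20, 16], [26, 9, 30, 4, 16],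
  [22, 23, 22, 12, 16], [22, 15, 26, 28, 16], [26, 17, 26, 20, 16], [26, 25, 22, 4, 16],
  [14, 3, 6, 28, 16], [30, 3, 10, 12, 16], [2, 21, 2, 4, 16], [2, 29, 14, 20, 16],
  [14, 19, 6, 28, 16], [30, 19, 10, 12, 16], [6, 15, 30, 12, 16], [18, 5, 30, 20, 16]]

def T2_0 : List (List ℕ) :=
  [[1], [1, 4, 18], [4, 22, 18], [8, 4, 0, 16],
  [24, 28, 0, 16], [1, 20, 10], [20, 14, 26], [16, 8, 16],
  [16, 24, 16], [4, 26, 20, 8], [4, 10, 12, 8], [12, 30, 12, 24],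
  [12, 30, 20, 24], [8, 20, 24, 16], [8, 4, 8, 16], [24, 12, 8, 16],
  [24, 28, 24, 16], [20, 2, 4, 8], [20, 18, 28, 8], [28, 22, 28, 24],
  [28, 22, 4, 24], [20, 2, 20, 8], [20, 2, 28, 8], [4, 26, 4, 8],
  [4, 10, 4, 8], [12, 14, 4, 24], [28, 22, 20, 24], [12, 30, 4, 24],
  [28, 6, 28, 24], [8, 4, 24, 16], [8, 20, 8, 16], [24, 28, 8, 16],
  [24, 12, 24, 16], [4, 26, 12, 8], [20, 18, 20, 8], [28, 6, 20, 24],
  [12, 14, 12, 24]]

def T2_1 : List (List ℕ) :=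
  [[1, 16, 8, 0, 8], [8, 12, 4, 8, 8], [1, 24, 28, 0, 24], [16, 24, 8, 24, 24],
  [4, 10, 12, 24], [12, 30, 12, 8], [8, 4, 16, 16], [24, 28, 16, 16],
  [1, 24, 12, 0, 24], [16, 8, 24, 24, 24], [20, 18, 28, 24], [28, 22, 28, 8],
  [16, 8], [16, 24], [4, 18, 16, 24, 16], [20, 10, 0, 24, 16],
  [4, 18, 0, 24, 16], [20, 26, 16, 24, 16], [12, 6, 16, 8, 16], [28, 14, 0, 8, 16],
  [12, 22, 0, 8, 16], [28, 14, 16, 8, 16], [8, 4, 0, 16], [8, 20, 0, 16],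
  [24, 28, 0, 16], [24, 12, 0, 16], [20, 26, 0, 24, 16], [4, 2, 16, 24, 16],
  [28, 30, 16, 8, 16], [12, 6, 0, 8, 16], [4, 2, 0, 24, 16], [20, 10, 16, 24, 16],
  [28, 30, 0, 8, 16], [12, 22, 16, 8, 16]]

def T10_0 : List (List ℕ) :=
  [[1], [1, 4, 2, 0, 16], [20, 14, 26], [8, 20, 0, 16],
  [24, 12, 0, 16], [1, 20, 26, 0, 16], [4, 6, 2], [16, 24, 16],
  [16, 8, 16], [20, 2, 20, 24], [20, 18, 12, 24], [28, 22, 12, 8],
  [28, 22, 20, 8], [8, 4, 24, 16], [8, 20, 8, 16], [24, 28, 8, 16],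
  [24, 12, 24, 16], [4, 10, 4, 24], [4, 26, 28, 24], [12, 14, 28, 8],
  [12, 14, 4, 8], [4, 10, 20, 24], [4, 10, 28, 24], [20, 2, 4, 24],
  [20, 18, 4, 24], [28, 6, 4, 8], [12, 14, 20, 8], [28, 22, 4, 8],
  [12, 30, 28, 8], [8, 20, 24, 16], [8, 4, 8, 16], [24, 12, 8, 16],
  [24, 28, 24, 16], [20, 2, 12, 24], [4, 26, 20, 24], [12, 30, 20, 8],
  [28, 6, 12, 8]]

def T10_1 : List (List ℕ) :=
  [[1, 16, 8, 0, 8], [8, 28, 20, 8, 8], [1, 24, 28, 0, 24], [16, 8, 24, 24, 24],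
  [20, 18, 28, 24], [28, 22, 28, 8], [8, 20, 16, 16], [24, 12, 16, 16],
  [1, 24, 12, 0, 24], [16, 24, 8, 24, 24], [4, 26, 12, 24], [12, 14, 12, 8],
  [16, 24], [16, 8], [20, 26, 16, 24, 16], [4, 18, 0, 24, 16],
  [20, 26, 0, 24, 16], [4, 2, 16, 24, 16], [28, 30, 16, 8, 16], [12, 6, 0, 8, 16],
  [28, 14, 0, 8, 16], [12, 6, 16, 8, 16], [8, 20, 0, 16], [8, 4, 0, 16],
  [24, 12, 0, 16], [24, 28, 0, 16], [4, 2, 0, 24, 16], [20, 10, 16, 24, 16],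
  [12, 22, 16, 8, 16], [28, 30, 0, 8, 16], [20, 10, 0, 24, 16], [4, 18, 16, 24, 16],
  [12, 22, 0, 8, 16], [28, 14, 16, 8, 16]]

lemma v1 (n : ℕ) : ¬ 8 ∣ S 1 n := by
  obtain ⟨l, hl, k, h⟩ := auto_val 1 T1_0 T1_1 (by decide +kernel) (by decide +kernel)
    (by decide +kernel) n
  have := (by decide +kernel : ∀ l ∈ T1_0, l.headD 0 % 8 ≠ 0) l hl
  omega

lemma v2 (n : ℕ) : ¬ 32 ∣ S 2 n := by
  obtain ⟨l, hl, k, h⟩ := auto_val 2 T2_0 T2_1 (by decide +kernel) (by decide +kernel)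
    (by decide +kernel) n
  have := (by decide +kernel : ∀ l ∈ T2_0, l.headD 0 % 32 ≠ 0) l hl
  omega

lemma v10 (n : ℕ) : ¬ 32 ∣ S 10 n := by
  obtain ⟨l, hl, k, h⟩ := auto_val 10 T10_0 T10_1 (by decide +kernel) (by decide +kernel)
    (by decide +kernel) n
  have := (by decide +kernel : ∀ l ∈ T10_0, l.headD 0 % 32 ≠ 0) l hl
  omega

end Pool.Agent.H.MP_b3d406_nt
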