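import Mathlib
import Pool.Agent.H.MP_b3d406_nt.A

set_option autoImplicit false

namespace Pool.Agent.H.MP_b3d406_nt

open PowerSeries Finset Pool.Agent.H.MP_c5dce0_nt

lemma S_Q (m n : ℕ) : S m n = coeff n (Q (n + 1) ^ m) := by
  rw [← S_eq, S, MP_53b42b_nt.HH, mul_comm m 3]
  rfl

lemma S_S (m n : ℕ) : S m n = MP_c5dce0_nt.S m n := by rw [S_Q, S_eq]

lemma coeff_int (c : ℤ) (f : ℤ⟦X⟧) (n : ℕ) : coeff n ((c : ℤ⟦X⟧) * f) = c * coeff n f := by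
  rw [← zsmul_eq_mul, map_zsmul, smul_eq_mul]

lemma S_mod (a s u n : ℕ) : ∃ k, S (a + 2 ^ (s + 2) * u) n = S a n + 2 ^ (s + 3) * k := by
  obtain ⟨k, hk⟩ := powu _ _ s (pow2 _ _ (Q4 (n + 1)) s) u
  refine ⟨coeff n (Q (n + 1) ^ a * (u * ∑ i ∈ range (n + 1), R i + 4 * k)), ?_⟩
  rw [S_Q, S_Q, pow_add, pow_mul, hk, mul_add, mul_one, map_add, ← coeff_int]
  push_cast
  rw [mul_left_comm]

noncomputable def Gi (N : ℕ) : ℤ⟦X⟧ := ∏ i ∈ range N, (1 - X ^ 4 ^ i) ^ 4 * geo (4 ^ (i + 1))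

lemma Q_Gi (N : ℕ) : Q N * Gi N = 1 := by
  rw [Q, Gi, ← prod_mul_distrib]
  refine prod_eq_one fun i _ => ?_
  have h1 := geo_mul (4 ^ i) (by positivity)
  have h2 := geo_mul (4 ^ (i + 1)) (by positivity)
  rw [mul_mul_mul_comm, ← mul_pow, h1, mul_comm (1 - _), h2, one_pow, mul_one]

lemma Gi_two (N : ℕ) : ∃ k, Gi N = 1 + 2 * k := by
  induction N with
  | zero => exact ⟨0, by simp [Gi]⟩
  | succ N ih =>
    obtain ⟨k, hk⟩ := ih
    have h2 := geo_mul (4 ^ (N + 1)) (by positivity)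
    rw [Gi, prod_range_succ, ← Gi, hk]
    rw [pow_succ 4 N, pow_mul] at *
    generalize (X : ℤ⟦X⟧) ^ 4 ^ N = y at *
    generalize geo (4 ^ N * 4) = g at *
    exact ⟨k + (1 + 2 * k) * g * (y ^ 4 - 2 * y ^ 3 + 3 * y ^ 2 - 2 * y),
      by linear_combination (1 + 2 * k) * h2⟩

noncomputable abbrev E4 : ℤ⟦X⟧ →ₐ[ℤ] ℤ⟦X⟧ := expand 4 four_ne_zero

lemma E4_geo (k : ℕ) : E4 (geo k) = geo (4 * k) := Lib.helper11.Mahler.expand_geo 4 four_ne_zero k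

lemma Gi_succ (N : ℕ) : Gi (N + 1) = (1 - X) ^ 4 * geo 4 * E4 (Gi N) := by
  rw [Gi, Gi, prod_range_succ', map_prod, mul_comm]
  simp only [map_mul, map_pow, map_sub, map_one, expand_X, E4_geo, ← pow_mul, ← pow_succ', pow_zero,
    pow_one, zero_add]

lemma split4 (f : ℕ → ℤ⟦X⟧) (n e : ℕ) (he : e < 4) : coeff (4 * n + e)
    (X ^ 0 * E4 (f 0) + X ^ 1 * E4 (f 1) + X ^ 2 * E4 (f 2) + X ^ 3 * E4 (f 3)) = coeff n (f e) := by
  simp only [map_add, Lib.helper11.Mahler.coeff_X_pow_expand 4 four_ne_zero e n _ he]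
  interval_cases e <;> simp

lemma g1 : geo 1 * (1 - X) = 1 := by simpa using geo_mul 1 one_ne_zero

lemma g4 : geo 4 * (1 - X ^ 4) = 1 := geo_mul 4 four_ne_zero

lemma odd_g (N n : ℕ) (hn : n < 4 ^ N) : Odd (coeff n (geo 1 * Gi N)) := by
  induction N generalizing n with
  | zero =>
    obtain rfl : n = 0 := by simpa using hn
    simp [Gi, geo]
  | succ N ih =>
    have h := split4 (fun e => (([1, -3, 3, -1].getD e 0 : ℤ) : ℤ⟦X⟧) * (geo 1 * Gi N)) (n / 4) (n % 4)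
      (by omega)
    have e : geo 1 * Gi (N + 1) = X ^ 0 * E4 (((1 : ℤ) : ℤ⟦X⟧) * (geo 1 * Gi N)) +
        X ^ 1 * E4 (((-3 : ℤ) : ℤ⟦X⟧) * (geo 1 * Gi N)) +
        X ^ 2 * E4 (((3 : ℤ) : ℤ⟦X⟧) * (geo 1 * Gi N)) +
        X ^ 3 * E4 (((-1 : ℤ) : ℤ⟦X⟧) * (geo 1 * Gi N)) := by
      simp only [Gi_succ, map_mul, map_intCast, E4_geo]
      push_cast
      linear_combination (1 - X) ^ 3 * geo 4 * E4 (Gi N) * g1
    rw [Nat.div_add_mod, coeff_int] at h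
    rw [e]
    refine (congrArg Odd h).mpr (Odd.mul ?_ (ih _ (by omega)))
    have : n % 4 < 4 := by omega
    generalize n % 4 = e at *
    interval_cases e <;> decide

def P (x : ℤ) (n : ℕ) : Prop := ¬ 8 ∣ x ∨ x = 0 ∧ ∃ v m, n = 4 ^ v * m ∧ m % 4 = 2

lemma P_four (x : ℤ) (n : ℕ) (h : P x n) : P x (4 * n) := by
  rcases h with h | ⟨h, v, m, rfl, hm⟩
  · exact .inl h
  · exact .inr ⟨h, v + 1, m, by ring, hm⟩

lemma P_Gi (N n : ℕ) (hn : n < 4 ^ N) :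
    P (coeff n (Gi N)) n ∧ P (coeff n ((1 + X) * geo 1 * Gi N)) n := by
  induction N generalizing n with
  | zero =>
    obtain rfl : n = 0 := by simpa using hn
    refine ⟨.inl ?_, .inl ?_⟩ <;> simp [Gi, geo] <;> decide
  | succ N ih =>
    obtain ⟨k, hk⟩ := odd_g N (n / 4) (by omega)
    obtain ⟨h1, h2⟩ := ih (n / 4) (by omega)
    have e1 : Gi (N + 1) = X ^ 0 * E4 ((1 + X) * geo 1 * Gi N) +
        X ^ 1 * E4 (((-4 : ℤ) : ℤ⟦X⟧) * (geo 1 * Gi N)) +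
        X ^ 2 * E4 (((6 : ℤ) : ℤ⟦X⟧) * (geo 1 * Gi N)) +
        X ^ 3 * E4 (((-4 : ℤ) : ℤ⟦X⟧) * (geo 1 * Gi N)) := by
      simp only [Gi_succ, map_mul, map_add, map_one, expand_X, map_intCast, E4_geo]
      push_cast
      ring
    have e2 : (1 + X) * geo 1 * Gi (N + 1) = X ^ 0 * E4 (Gi N) +
        X ^ 1 * E4 (((-2 : ℤ) : ℤ⟦X⟧) * (geo 1 * Gi N)) +
        X ^ 2 * E4 (((0 : ℤ) : ℤ⟦X⟧) * (geo 1 * Gi N)) +
        X ^ 3 * E4 (((2 : ℤ) : ℤ⟦X⟧) * (geo 1 * Gi N)) := by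
      simp only [Gi_succ, map_mul, map_intCast, E4_geo]
      push_cast
      linear_combination (1 + X) * (1 - X) ^ 3 * geo 4 * E4 (Gi N) * g1 + E4 (Gi N) * g4
    have h3 := split4 (fun e => if e = 0 then (1 + X) * geo 1 * Gi N else
      (([0, -4, 6, -4].getD e 0 : ℤ) : ℤ⟦X⟧) * (geo 1 * Gi N)) (n / 4) (n % 4) (by omega)
    have h4 := split4 (fun e => if e = 0 then Gi N else
      (([0, -2, 0, 2].getD e 0 : ℤ) : ℤ⟦X⟧) * (geo 1 * Gi N)) (n / 4) (n % 4) (by omega)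
    rw [Nat.div_add_mod] at h3 h4
    rw [(congrArg (coeff n) e2).trans h4, (congrArg (coeff n) e1).trans h3]
    have h5 := Nat.div_add_mod n 4
    obtain h | h | h | h : n % 4 = 0 ∨ n % 4 = 1 ∨ n % 4 = 2 ∨ n % 4 = 3 := by omega
    · rw [h, add_zero] at h5
      rw [h, if_pos rfl, if_pos rfl]
      have h6 := P_four _ _ h1
      have h7 := P_four _ _ h2
      rw [h5] at h6 h7
      exact ⟨h7, h6⟩
    all_goals
      rw [h, if_neg (by omega), if_neg (by omega), coeff_int, coeff_int, hk]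
      simp only [List.getD_cons_succ, List.getD_cons_zero]
    · exact ⟨.inl (by omega), .inl (by omega)⟩
    · exact ⟨.inl (by omega), .inr ⟨by omega, 0, n, by simp, h⟩⟩
    · exact ⟨.inl (by omega), .inl (by omega)⟩

lemma three (s u n : ℕ) (hu : Odd u) (m : ℕ) (hm : m + 1 = 2 ^ (s + 2) * u) :
    ¬ 2 ^ (s + 4) ∣ S m n := by
  obtain ⟨k, hk⟩ := powu _ _ s (pow2 _ _ (Q4 (n + 1)) s) u
  obtain ⟨l, hl⟩ := Gi_two (n + 1)
  have e : Q (n + 1) ^ m = Gi (n + 1) + ((2 ^ (s + 3) * u : ℤ) : ℤ⟦X⟧) * ∑ i ∈ range (n + 1), R i +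
      ((2 ^ (s + 4) : ℤ) : ℤ⟦X⟧) * (2 * k + l * (u * ∑ i ∈ range (n + 1), R i + 4 * k)) := by
    rw [← pow_mul, ← hm] at hk
    push_cast
    linear_combination -Q (n + 1) ^ m * Q_Gi (n + 1) + Gi (n + 1) * hk +
      2 ^ (s + 3) * (u * ∑ i ∈ range (n + 1), R i + 4 * k) * hl
  rw [S_Q, e, map_add, map_add, coeff_int, coeff_int, dvd_add_left (dvd_mul_right _ _)]
  rcases (P_Gi (n + 1) n (lt4 _ _ (by omega))).1 with h | ⟨h, v, a, h1, h2⟩
  · have h8 : (8 : ℤ) ∣ 2 ^ (s + 3) := ⟨2 ^ s, by ring⟩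
    exact fun h' => h ((dvd_add_left ((h8.mul_right _).mul_right _)).mp
      ((h8.trans (pow_dvd_pow 2 (by omega))).trans h'))
  · rw [h, zero_add, coeff_R n v a (by omega) h1, pow_succ 2 (s + 3), mul_assoc,
      mul_dvd_mul_iff_left (by positivity), rho, if_neg (by omega)]
    obtain ⟨b, rfl⟩ := hu
    push_cast
    split_ifs <;> omega

lemma bound (m : ℕ) (h0 : 0 < m) (hm : m % 8 ≠ 6) : ∃ M, ∀ n, ¬ 2 ^ M ∣ S m n := by
  obtain h | h | h | h | h : m % 4 = 0 ∨ m % 4 = 1 ∨ m % 16 = 2 ∨ m % 16 = 10 ∨ m % 4 = 3 := by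
    omega
  · obtain ⟨w, u, hu, rfl⟩ := Nat.exists_eq_two_pow_mul_odd h0.ne'
    obtain ⟨b, hb⟩ := id hu
    rcases w with _ | _ | s
    · omega
    · omega
    refine ⟨s + 5, fun n => ?_⟩
    rw [S_S]
    rcases Nat.eq_zero_or_pos n with rfl | hn
    · rw [S_zero]
      exact fun h => by simpa using (dvd_pow_self 2 (by omega)).trans h
    · rw [← emultiplicity_lt_iff_not_dvd, MP_c5dce0_nt.main s u n hu hn]
      exact_mod_cast by omega
  · refine ⟨3, fun n => ?_⟩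
    obtain ⟨k, hk⟩ := S_mod 1 0 (m / 4) n
    have := v1 n
    rw [show 1 + 2 ^ (0 + 2) * (m / 4) = m by omega] at hk
    omega
  · refine ⟨5, fun n => ?_⟩
    obtain ⟨k, hk⟩ := S_mod 2 2 (m / 16) n
    have := v2 n
    rw [show 2 + 2 ^ (2 + 2) * (m / 16) = m by omega] at hk
    omega
  · refine ⟨5, fun n => ?_⟩
    obtain ⟨k, hk⟩ := S_mod 10 2 (m / 16) n
    have := v10 n
    rw [show 10 + 2 ^ (2 + 2) * (m / 16) = m by omega] at hk
    omega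
  · obtain ⟨w, u, hu, h1⟩ := Nat.exists_eq_two_pow_mul_odd (show m + 1 ≠ 0 by omega)
    obtain ⟨b, hb⟩ := id hu
    rcases w with _ | _ | s
    · omega
    · omega
    exact ⟨s + 4, fun n => three s u n hu m h1⟩

theorem main (m : ℕ) (h0 : 0 < m) (hm : m % 8 ≠ 6) :
    {e : ℕ → ℕ∞ | ∃ i j, j < 4 ^ i ∧ e = fun n => emultiplicity 4 (S m (4 ^ i * n + j))}.Finite := by
  obtain ⟨M, h⟩ := bound m h0 hm
  exact fin_kernel m M fun n h' => h n ((pow_dvd_pow_of_dvd (by norm_num) M).trans h')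

end Pool.Agent.H.MP_b3d406_nt
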